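import Pool.Agent.Y264.QR.Stm
import Pool.Agent.Y592.QE.Spec
import Pool.Agent.Y726.QE.Der

/-!
# Project QR: continuity of the eigenvalues, one-sided derivatives
-/

set_option autoImplicit false

open Set Filter Topology MeasureTheory
open scoped Real ContDiff

noncomputable section

namespace Pool.Agent.Y390.QR.LIP

open Pool.Agent.Y262.QE Pool.Agent.Y264.QR Pool.Agent.Y592.QE

section forms

variable {H : Type} [NormedAddCommGroup H] [InnerProductSpace ℝ H]

lemma HD_mono {a b : H →L[ℝ] H →L[ℝ] ℝ} {lam : ℝ} {i j : ℕ} (hij : i ≤ j) (h : HD a b lam j) :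
    HD a b lam i := by
  obtain ⟨V, hV, hVa⟩ := h
  obtain ⟨f, hf⟩ := exists_linearIndependent_of_le_finrank (R := ℝ) (M := V) (n := i + 1)
    (by rw [hV]; omega)
  have hf' : LinearIndependent ℝ (fun p => (f p : H)) := hf.map' V.subtype V.ker_subtype
  refine ⟨Submodule.span ℝ (Set.range fun p => (f p : H)), ?_, ?_⟩
  · rw [finrank_span_eq_card hf', Fintype.card_fin]
  · intro v hv
    refine hVa v ?_
    refine (Submodule.span_le.2 ?_) hv
    rintro _ ⟨p, rfl⟩
    exact (f p).2

lemma Ev_mono {a b : H →L[ℝ] H →L[ℝ] ℝ} (hF : Fm a b) {i j : ℕ} (hij : i ≤ j) :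
    Ev a b i ≤ Ev a b j :=
  csInf_le_csInf (bdd_set a b i) (nonempty_set hF j) fun _ h => ⟨h.1, HD_mono hij h.2⟩

lemma Ev_nonneg {a b : H →L[ℝ] H →L[ℝ] ℝ} (j : ℕ) : 0 ≤ Ev a b j :=
  Real.sInf_nonneg fun _ hx => hx.1

end forms

theorem lip : StLip := by
  intro M _ _ _ _ μ _ H _ _ a b hF hb
  have h3 : ∀ φ ψ j, Ev a (b φ) j ≤ Real.exp ‖φ - ψ‖ * Ev a (b ψ) j := by
    intro φ ψ j
    refine (mon H a (b ψ) (b φ) (hF ψ) (hF φ) _ (Real.exp_pos _) ?_ j).2
    intro v
    rw [norm_sub_rev]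
    exact hb ψ φ v
  refine ⟨fun φ j => Ev_nonneg j, fun φ i j hij => Ev_mono (hF φ) hij, h3, ?_, ?_⟩
  · intro j
    rw [continuous_iff_continuousAt]
    intro ψ
    have hd : Tendsto (fun φ : C(M, ℝ) => ‖φ - ψ‖) (𝓝 ψ) (𝓝 0) := by
      have h1 : Continuous fun φ : C(M, ℝ) => ‖φ - ψ‖ := by fun_prop
      have h2 := h1.tendsto ψ
      rwa [sub_self, norm_zero] at h2
    have hu : Tendsto (fun φ : C(M, ℝ) => Real.exp ‖φ - ψ‖ * Ev a (b ψ) j) (𝓝 ψ)
        (𝓝 (Ev a (b ψ) j)) := by
      have h1 := ((Real.continuous_exp.tendsto 0).comp hd).mul_const (Ev a (b ψ) j)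
      rw [Real.exp_zero, one_mul] at h1
      exact h1
    have hl : Tendsto (fun φ : C(M, ℝ) => Real.exp (-‖φ - ψ‖) * Ev a (b ψ) j) (𝓝 ψ)
        (𝓝 (Ev a (b ψ) j)) := by
      have hd' := hd.neg
      rw [neg_zero] at hd'
      have h1 := ((Real.continuous_exp.tendsto 0).comp hd').mul_const (Ev a (b ψ) j)
      rw [Real.exp_zero, one_mul] at h1
      exact h1
    refine tendsto_of_tendsto_of_tendsto_of_le_of_le hl hu ?_ ?_
    · intro φ
      have h1 := h3 ψ φ j
      rw [norm_sub_rev] at h1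
      have h2 : 0 < Real.exp (-‖φ - ψ‖) := Real.exp_pos _
      calc Real.exp (-‖φ - ψ‖) * Ev a (b ψ) j
          ≤ Real.exp (-‖φ - ψ‖) * (Real.exp ‖φ - ψ‖ * Ev a (b φ) j) :=
            mul_le_mul_of_nonneg_left h1 h2.le
        _ = Ev a (b φ) j := by rw [← mul_assoc, ← Real.exp_add, neg_add_cancel, Real.exp_zero,
            one_mul]
    · intro φ
      exact h3 φ ψ j
  · intro j
    by_cases h : ∃ φ, Ev a (b φ) j = 0
    · left
      obtain ⟨φ, hφ⟩ := h
      intro ψ
      have h1 := h3 ψ φ j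
      rw [hφ, mul_zero] at h1
      exact le_antisymm h1 (Ev_nonneg j)
    · right
      intro φ
      exact lt_of_le_of_ne (Ev_nonneg j) fun h' => h ⟨φ, h'.symm⟩

/-! ### Derivatives -/

lemma small {A B τ : ℝ} (hA : 0 ≤ A) (h : |τ| < B / (A + 1)) : A * |τ| ≤ B := by
  rw [lt_div_iff₀ (by linarith)] at h
  nlinarith [abs_nonneg τ]

/-- the inequality for the coefficients of `c²` -/
lemma ineq_c {lam κ K s ε τ : ℝ} (hlam : 0 ≤ lam) (hκ : |κ| ≤ K) (hs : 0 < s) (hs1 : s ≤ 1)
    (hsε : 8 * lam * K * s ≤ ε) (hε : 0 < ε) (h1 : K * |τ| ≤ 1 / 8)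
    (h2 : lam * K ^ 2 * |τ| ≤ ε / 4) :
    lam ≤ (lam * (1 - κ * τ) + ε * |τ|) * (1 + τ * κ - |τ| * (K * s)) := by
  have hK : 0 ≤ K := (abs_nonneg κ).trans hκ
  have ht := abs_nonneg τ
  have hκτ : |κ * τ| ≤ 1 / 8 := by
    rw [abs_mul]
    exact (mul_le_mul_of_nonneg_right hκ ht).trans h1
  obtain ⟨ha, hb⟩ := abs_le.1 hκτ
  have hKs : |τ| * (K * s) ≤ 1 / 8 := by
    have : |τ| * (K * s) ≤ K * |τ| := by
      have h3 : K * |τ| * s ≤ K * |τ| * 1 := mul_le_mul_of_nonneg_left hs1 (mul_nonneg hK ht)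
      linarith
    linarith
  have hKs0 : 0 ≤ |τ| * (K * s) := by positivity
  -- the factor of ε
  have e1 : ε * |τ| * (3 / 4) ≤ ε * |τ| * (1 + τ * κ - |τ| * (K * s)) :=
    mul_le_mul_of_nonneg_left (by linarith) (by positivity)
  have e2 : lam * (κ * τ) ^ 2 ≤ ε / 4 * |τ| := by
    have h3 : (κ * τ) ^ 2 ≤ K ^ 2 * |τ| * |τ| := by
      have h4 : (κ * τ) ^ 2 = |κ| ^ 2 * (|τ| * |τ|) := by
        rw [mul_pow, ← sq_abs κ, ← sq_abs τ]
        ring
      have h5 : |κ| ^ 2 ≤ K ^ 2 := pow_le_pow_left₀ (abs_nonneg _) hκ 2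
      rw [h4]
      calc |κ| ^ 2 * (|τ| * |τ|) ≤ K ^ 2 * (|τ| * |τ|) :=
            mul_le_mul_of_nonneg_right h5 (by positivity)
        _ = K ^ 2 * |τ| * |τ| := by ring
    calc lam * (κ * τ) ^ 2 ≤ lam * (K ^ 2 * |τ| * |τ|) := mul_le_mul_of_nonneg_left h3 hlam
      _ = lam * K ^ 2 * |τ| * |τ| := by ring
      _ ≤ ε / 4 * |τ| := mul_le_mul_of_nonneg_right h2 ht
  have e3 : lam * (1 - κ * τ) * (|τ| * (K * s)) ≤ ε / 4 * |τ| := by
    have h3 : lam * (1 - κ * τ) ≤ lam * 2 := mul_le_mul_of_nonneg_left (by linarith) hlam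
    calc lam * (1 - κ * τ) * (|τ| * (K * s)) ≤ lam * 2 * (|τ| * (K * s)) :=
          mul_le_mul_of_nonneg_right h3 hKs0
      _ = (8 * lam * K * s) / 4 * |τ| := by ring
      _ ≤ ε / 4 * |τ| := mul_le_mul_of_nonneg_right (by linarith) ht
  have e4 : (lam * (1 - κ * τ) + ε * |τ|) * (1 + τ * κ - |τ| * (K * s)) =
      lam - lam * (κ * τ) ^ 2 - lam * (1 - κ * τ) * (|τ| * (K * s)) +
        ε * |τ| * (1 + τ * κ - |τ| * (K * s)) := by ring
  rw [e4]
  have e5 : 0 ≤ ε * |τ| := by positivity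
  linarith

/-- the inequality for the other coefficients -/
lemma ineq_y {lam κ K s ε τ g : ℝ} (hlam : 0 ≤ lam) (hκ : |κ| ≤ K) (hs : 0 < s)
    (hε : 0 < ε) (h3 : K * (1 + 1 / s) * |τ| ≤ 1)
    (h4 : lam * (K * (2 + 1 / s)) * |τ| ≤ g) :
    lam - g ≤ (lam * (1 - κ * τ) + ε * |τ|) * (1 - |τ| * (K * (1 + 1 / s))) := by
  have hK : 0 ≤ K := (abs_nonneg κ).trans hκ
  have ht := abs_nonneg τ
  have hκτ : κ * τ ≤ K * |τ| := by
    refine (le_abs_self _).trans ?_
    rw [abs_mul]
    exact mul_le_mul_of_nonneg_right hκ ht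
  have hx : 0 ≤ 1 - |τ| * (K * (1 + 1 / s)) := by linarith
  have h5 : lam * (1 - K * |τ|) ≤ lam * (1 - κ * τ) + ε * |τ| := by
    have h6 := mul_le_mul_of_nonneg_left (by linarith : 1 - K * |τ| ≤ 1 - κ * τ) hlam
    have h7 : 0 ≤ ε * |τ| := by positivity
    linarith
  refine le_trans ?_ (mul_le_mul_of_nonneg_right h5 hx)
  have h8 : lam * (1 - K * |τ|) * (1 - |τ| * (K * (1 + 1 / s))) =
      lam - lam * (K * (2 + 1 / s)) * |τ| + lam * (K * |τ| * (K * (1 + 1 / s) * |τ|)) := by ring
  rw [h8]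
  have h9 : 0 ≤ lam * (K * |τ| * (K * (1 + 1 / s) * |τ|)) := by positivity
  linarith

theorem der0 : StDer0 := by
  intro H _ _ a b hF e E hE k K ksym hk i j hij hlt ε hε
  have hE0 : ∀ l, 0 ≤ E l := by
    intro l
    have h1 := hF.na (e l)
    rw [hE.eig, hE.orth, if_pos rfl, mul_one] at h1
    exact h1
  have hκ : |k (e j) (e j)| ≤ K := by
    have h1 := hk (e j)
    rwa [hE.orth, if_pos rfl, mul_one] at h1
  have hK : 0 ≤ K := (abs_nonneg _).trans hκ
  set lam := E i with hlam
  have hlam0 : 0 ≤ lam := hE0 i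
  set κ := k (e j) (e j) with hκdef
  obtain ⟨g, hg, hgap⟩ := Pool.Agent.Y726.QE.exists_gap (Finset.range i) (fun l => lam - E l)
    (fun l hl => by
      have := hlt l (Finset.mem_range.1 hl)
      linarith)
  set s : ℝ := ε / (8 * lam * K + ε) with hs
  have hs0 : 0 < s := by positivity
  have hs1 : s ≤ 1 := by
    rw [hs, div_le_one (by positivity)]
    have : 0 ≤ 8 * lam * K := by positivity
    linarith
  have hsε : 8 * lam * K * s ≤ ε := by
    rw [hs, mul_div_assoc', div_le_iff₀ (by positivity)]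
    have : 0 ≤ ε * ε := by positivity
    nlinarith
  refine ⟨min (min ((1 / 8) / (K + 1)) ((ε / 4) / (lam * K ^ 2 + 1)))
    (min (1 / (K * (1 + 1 / s) + 1)) (g / (lam * (K * (2 + 1 / s)) + 1))), ?_, ?_⟩
  · refine lt_min (lt_min ?_ ?_) (lt_min ?_ ?_) <;> positivity
  intro τ hτ b' hb'
  have h1 : K * |τ| ≤ 1 / 8 :=
    small hK (lt_of_lt_of_le hτ ((min_le_left _ _).trans (min_le_left _ _)))
  have h2 : lam * K ^ 2 * |τ| ≤ ε / 4 :=
    small (by positivity)
      (lt_of_lt_of_le hτ ((min_le_left _ _).trans (min_le_right _ _)))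
  have h3 : K * (1 + 1 / s) * |τ| ≤ 1 :=
    small (by positivity)
      (lt_of_lt_of_le hτ ((min_le_right _ _).trans (min_le_left _ _)))
  have h4 : lam * (K * (2 + 1 / s)) * |τ| ≤ g :=
    small (by positivity) (lt_of_lt_of_le hτ ((min_le_right _ _).trans (min_le_right _ _)))
  have hc := ineq_c hlam0 hκ hs0 hs1 hsε hε h1 h2
  have hy := ineq_y (g := g) hlam0 hκ hs0 hε h3 h4
  have ht := abs_nonneg τ
  have hμ : 0 ≤ lam * (1 - κ * τ) + ε * |τ| := by
    have h5 : κ * τ ≤ K * |τ| := by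
      refine (le_abs_self _).trans ?_
      rw [abs_mul]
      exact mul_le_mul_of_nonneg_right hκ ht
    have h6 : 0 ≤ lam * (1 - κ * τ) := mul_nonneg hlam0 (by linarith)
    have h7 : 0 ≤ ε * |τ| := by positivity
    linarith
  -- the subspace
  have hji : ∀ l, l < i → l ≠ j := by
    rintro l hl rfl
    have := hlt l hl
    linarith
  let idx : Fin (i + 1) → ℕ := fun p => if (p : ℕ) < i then p else j
  have hidx : Function.Injective idx := by
    intro p q hpq
    simp only [idx] at hpq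
    have hp := p.2
    have hq := q.2
    split_ifs at hpq with hp1 hq1 hq1
    · exact Fin.ext hpq
    · exact absurd hpq (hji _ hp1)
    · exact absurd hpq.symm (hji _ hq1)
    · apply Fin.ext
      omega
  let f : Fin (i + 1) → H := fun p => e (idx p)
  have horth : ∀ p q : Fin (i + 1), b (f p) (f q) = if p = q then 1 else 0 := by
    intro p q
    show b (e (idx p)) (e (idx q)) = _
    rw [hE.orth]
    by_cases h : p = q
    · rw [if_pos h, if_pos (by rw [h])]
    · rw [if_neg h, if_neg fun h' => h (hidx h')]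
  have hHD : HD a b' (lam * (1 - κ * τ) + ε * |τ|) i := by
    refine ⟨Submodule.span ℝ (range f), finrank_orth b horth, ?_⟩
    intro v hv
    obtain ⟨c, rfl⟩ := (Submodule.mem_span_range_iff_exists_fun ℝ).1 hv
    set x := c (Fin.last i) with hx
    let d : Fin i → ℝ := fun l => c l.castSucc
    set y : H := ∑ l : Fin i, d l • e l with hydef
    have hv' : ∑ p, c p • f p = y + x • e j := by
      rw [Fin.sum_univ_castSucc]
      congr 1
      · refine Finset.sum_congr rfl fun l _ => ?_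
        have : idx l.castSucc = l := by
          simp only [idx, Fin.val_castSucc, if_pos l.2]
        show c l.castSucc • e (idx l.castSucc) = _
        rw [this]
      · have : idx (Fin.last i) = j := by
          simp only [idx, Fin.val_last, lt_irrefl, if_false]
        show c (Fin.last i) • e (idx (Fin.last i)) = _
        rw [this]
    rw [hv']
    have ho := orth_fin b hE.orth i
    have hyy : b y y = ∑ l : Fin i, d l ^ 2 := b_orth_self b ho d
    have hY0 : 0 ≤ b y y := hF.nb y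
    have hyj : b y (e j) = 0 := by
      rw [hydef, b_sum_left]
      refine Finset.sum_eq_zero fun l _ => ?_
      rw [hE.orth, if_neg (hji l l.2), mul_zero]
    have hayy : a y y ≤ (lam - g) * b y y := by
      have h5 : a y y = ∑ l : Fin i, E l * d l ^ 2 := by
        rw [hydef, b_sum_left]
        refine Finset.sum_congr rfl fun l _ => ?_
        rw [hE.eig, b_orth_coef b ho]
        ring
      rw [h5, hyy, Finset.mul_sum]
      refine Finset.sum_le_sum fun l _ => ?_
      have h6 := hgap l (Finset.mem_range.2 l.2)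
      exact mul_le_mul_of_nonneg_right (by linarith) (sq_nonneg _)
    have hjj : b (e j) (e j) = 1 := by rw [hE.orth, if_pos rfl]
    have hav : a (y + x • e j) (y + x • e j) = a y y + lam * x ^ 2 := by
      have h5 : a (e j) y = 0 := by rw [hE.eig, hF.sb, hyj, mul_zero]
      have h6 : a y (e j) = 0 := by rw [hF.sa, h5]
      have h7 : a (e j) (e j) = lam := by rw [hE.eig, hjj, mul_one]; exact hij.symm
      simp only [map_add, map_smul, add_apply,
        smul_apply, smul_eq_mul, h5, h6, h7]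
      ring
    have hbv : b (y + x • e j) (y + x • e j) = b y y + x ^ 2 := by
      have h6 : b (e j) y = 0 := by rw [hF.sb, hyj]
      simp only [map_add, map_smul, add_apply,
        smul_apply, smul_eq_mul, hyj, h6, hjj]
      ring
    have hkv : k (y + x • e j) (y + x • e j) = k y y + 2 * x * k y (e j) + κ * x ^ 2 := by
      simp only [map_add, map_smul, add_apply,
        smul_apply, smul_eq_mul]
      rw [ksym (e j) y]
      ring
    -- the cross term
    have hcross : |2 * x * k y (e j)| ≤ K * (b y y / s + s * x ^ 2) := by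
      have p1 := hk (y + (s * x) • e j)
      have p2 := hk (y - (s * x) • e j)
      have q1 : k (y + (s * x) • e j) (y + (s * x) • e j) =
          k y y + 2 * (s * x) * k y (e j) + κ * (s * x) ^ 2 := by
        simp only [map_add, map_smul, add_apply,
          smul_apply, smul_eq_mul]
        rw [ksym (e j) y]
        ring
      have q2 : k (y - (s * x) • e j) (y - (s * x) • e j) =
          k y y - 2 * (s * x) * k y (e j) + κ * (s * x) ^ 2 := by
        simp only [map_sub, map_smul, sub_apply,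
          smul_apply, smul_eq_mul]
        rw [ksym (e j) y]
        ring
      have r1 : b (y + (s * x) • e j) (y + (s * x) • e j) = b y y + (s * x) ^ 2 := by
        have h6 : b (e j) y = 0 := by rw [hF.sb, hyj]
        simp only [map_add, map_smul, add_apply,
          smul_apply, smul_eq_mul, hyj, h6, hjj]
        ring
      have r2 : b (y - (s * x) • e j) (y - (s * x) • e j) = b y y + (s * x) ^ 2 := by
        have h6 : b (e j) y = 0 := by rw [hF.sb, hyj]
        simp only [map_sub, map_smul, sub_apply,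
          smul_apply, smul_eq_mul, hyj, h6, hjj]
        ring
      rw [q1, r1] at p1
      rw [q2, r2] at p2
      have h5 : |s * (2 * x * k y (e j))| ≤ s * (K * (b y y / s + s * x ^ 2)) := by
        have h6 : s * (K * (b y y / s + s * x ^ 2)) = K * (b y y + (s * x) ^ 2) := by
          field_simp
        rw [h6]
        obtain ⟨u1, u2⟩ := abs_le.1 p1
        obtain ⟨w1, w2⟩ := abs_le.1 p2
        rw [abs_le]
        constructor <;> linarith
      rw [abs_mul, abs_of_pos hs0] at h5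
      exact le_of_mul_le_mul_left h5 hs0
    have hkyy := hk y
    set Y := b y y with hYdef
    have hlow : (1 + τ * κ - |τ| * (K * s)) * x ^ 2 + (1 - |τ| * (K * (1 + 1 / s))) * Y ≤
        b' (y + x • e j) (y + x • e j) := by
      refine le_trans ?_ (hb' _)
      rw [hbv, hkv]
      have h5 : -(|τ| * (K * Y + K * (Y / s + s * x ^ 2))) ≤
          τ * (k y y + 2 * x * k y (e j)) := by
        have h6 : |τ * (k y y + 2 * x * k y (e j))| ≤
            |τ| * (K * Y + K * (Y / s + s * x ^ 2)) := by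
          rw [abs_mul]
          refine mul_le_mul_of_nonneg_left ?_ ht
          exact (abs_add_le _ _).trans (add_le_add hkyy hcross)
        exact (abs_le.1 h6).1
      have h7 : (1 + τ * κ - |τ| * (K * s)) * x ^ 2 + (1 - |τ| * (K * (1 + 1 / s))) * Y =
          Y + x ^ 2 + τ * (κ * x ^ 2) - |τ| * (K * Y + K * (Y / s + s * x ^ 2)) := by
        field_simp
        ring
      rw [h7]
      linarith
    rw [hav]
    have hx2 : 0 ≤ x ^ 2 := sq_nonneg x
    calc a y y + lam * x ^ 2 ≤ (lam - g) * Y + lam * x ^ 2 := by linarith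
      _ ≤ ((lam * (1 - κ * τ) + ε * |τ|) * (1 - |τ| * (K * (1 + 1 / s)))) * Y +
          ((lam * (1 - κ * τ) + ε * |τ|) * (1 + τ * κ - |τ| * (K * s))) * x ^ 2 :=
          add_le_add (mul_le_mul_of_nonneg_right hy hY0) (mul_le_mul_of_nonneg_right hc hx2)
      _ = (lam * (1 - κ * τ) + ε * |τ|) *
          ((1 + τ * κ - |τ| * (K * s)) * x ^ 2 + (1 - |τ| * (K * (1 + 1 / s))) * Y) := by ring
      _ ≤ _ := mul_le_mul_of_nonneg_left hlow hμ
  exact csInf_le ⟨0, fun x hx => hx.1⟩ ⟨hμ, hHD⟩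

end Pool.Agent.Y390.QR.LIP
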