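import Pool.Agent.Y264.QR.Stm2

/-!
# Project QR: test functions on a square
-/

set_option autoImplicit false

open Set Filter Topology MeasureTheory
open scoped Real ContDiff
open Pool.Agent.Y262.QE Pool.Agent.Y264.QR

noncomputable section

namespace Pool.Agent.Y390.QR.DIR

/-- continuous functions with compact support -/
def CC (u : ℝ → ℝ) : Prop := Continuous u ∧ HasCompactSupport u

lemma CC.mul {u v : ℝ → ℝ} (hu : CC u) (hv : CC v) : CC fun x => u x * v x :=
  ⟨hu.1.mul hv.1, hu.2.mul_right⟩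

lemma intg {u v : ℝ → ℝ} (hu : CC u) (hv : CC v) :
    Integrable fun z : ℂ => u z.re * v z.im := by
  refine Continuous.integrable_of_hasCompactSupport
    ((hu.1.comp Complex.continuous_re).mul (hv.1.comp Complex.continuous_im)) ?_
  refine HasCompactSupport.intro (IsCompact.reProdIm hu.2 hv.2) ?_
  intro z hz
  rw [Complex.mem_reProdIm, not_and_or] at hz
  rcases hz with hz | hz
  · rw [image_eq_zero_of_notMem_tsupport hz, zero_mul]
  · rw [image_eq_zero_of_notMem_tsupport hz, mul_zero]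

lemma fub (u v : ℝ → ℝ) : ∫ z : ℂ, u z.re * v z.im = (∫ x, u x) * ∫ y, v y := by
  have h := Complex.volume_preserving_equiv_real_prod.integral_comp
    Complex.measurableEquivRealProd.measurableEmbedding (fun p : ℝ × ℝ => u p.1 * v p.2)
  rw [← integral_prod_mul (μ := volume) (ν := volume) u v]
  exact h

lemma quad {ι : Type} [Fintype ι] (c : ι → ℝ) (u v : ι → ℝ → ℝ) (hu : ∀ m, CC (u m))
    (hv : ∀ m, CC (v m)) :
    Integrable (fun z : ℂ => (∑ m, c m * (u m z.re * v m z.im)) ^ 2) ∧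
    ∫ z : ℂ, (∑ m, c m * (u m z.re * v m z.im)) ^ 2 =
      ∑ m, ∑ m', c m * c m' * ((∫ x, u m x * u m' x) * ∫ x, v m x * v m' x) := by
  have h1 : ∀ z : ℂ, (∑ m, c m * (u m z.re * v m z.im)) ^ 2 =
      ∑ m, ∑ m', c m * c m' * ((fun x => u m x * u m' x) z.re * (fun x => v m x * v m' x) z.im) := by
    intro z
    rw [pow_two, Finset.sum_mul_sum]
    refine Finset.sum_congr rfl fun m _ => Finset.sum_congr rfl fun m' _ => ?_
    ring
  have hI : ∀ m m', Integrable fun z : ℂ =>
      c m * c m' * ((fun x => u m x * u m' x) z.re * (fun x => v m x * v m' x) z.im) :=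
    fun m m' => (intg ((hu m).mul (hu m')) ((hv m).mul (hv m'))).const_mul _
  simp_rw [h1]
  refine ⟨integrable_finsetSum _ fun m _ => integrable_finsetSum _ fun m' _ => hI m m', ?_⟩
  rw [integral_finsetSum _ fun m _ => integrable_finsetSum _ fun m' _ => hI m m']
  refine Finset.sum_congr rfl fun m _ => ?_
  rw [integral_finsetSum _ fun m' _ => hI m m']
  refine Finset.sum_congr rfl fun m' _ => ?_
  rw [integral_const_mul, fub (fun x => u m x * u m' x) (fun x => v m x * v m' x)]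

/-- quadratic forms with an almost diagonal matrix -/
lemma near {ι : Type} [Fintype ι] [DecidableEq ι] (G : ι → ι → ℝ) (D : ι → ℝ) {δ : ℝ}
    (h : ∀ m m', |G m m' - if m = m' then D m else 0| ≤ δ) (c : ι → ℝ) :
    |(∑ m, ∑ m', c m * c m' * G m m') - ∑ m, D m * c m ^ 2| ≤
      Fintype.card ι * δ * ∑ m, c m ^ 2 := by
  have h1 : (∑ m, ∑ m', c m * c m' * G m m') - ∑ m, D m * c m ^ 2 =
      ∑ m, ∑ m', c m * c m' * (G m m' - if m = m' then D m else 0) := by
    rw [← Finset.sum_sub_distrib]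
    refine Finset.sum_congr rfl fun m _ => ?_
    have h2 : D m * c m ^ 2 = ∑ m', c m * c m' * (if m = m' then D m else 0) := by
      rw [Finset.sum_eq_single m]
      · rw [if_pos rfl]
        ring
      · intro m' _ hne
        rw [if_neg (Ne.symm hne), mul_zero]
      · intro h'
        exact absurd (Finset.mem_univ m) h'
    rw [h2, ← Finset.sum_sub_distrib]
    refine Finset.sum_congr rfl fun m' _ => ?_
    ring
  rw [h1]
  have h3 : ∀ m m', |c m * c m' * (G m m' - if m = m' then D m else 0)| ≤ |c m| * |c m'| * δ := by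
    intro m m'
    rw [abs_mul, abs_mul]
    exact mul_le_mul_of_nonneg_left (h m m') (by positivity)
  calc |∑ m, ∑ m', c m * c m' * (G m m' - if m = m' then D m else 0)|
      ≤ ∑ m, ∑ m', |c m| * |c m'| * δ := by
        refine (Finset.abs_sum_le_sum_abs _ _).trans (Finset.sum_le_sum fun m _ => ?_)
        exact (Finset.abs_sum_le_sum_abs _ _).trans (Finset.sum_le_sum fun m' _ => h3 m m')
    _ = δ * (∑ m, |c m|) ^ 2 := by
        rw [pow_two, Finset.sum_mul_sum, Finset.mul_sum]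
        refine Finset.sum_congr rfl fun m _ => ?_
        rw [Finset.mul_sum]
        refine Finset.sum_congr rfl fun m' _ => ?_
        ring
    _ ≤ δ * (Fintype.card ι * ∑ m, c m ^ 2) := by
        by_cases hne : Nonempty ι
        · obtain ⟨m⟩ := hne
          have hδ : 0 ≤ δ := (abs_nonneg _).trans (h m m)
          refine mul_le_mul_of_nonneg_left ?_ hδ
          have h4 := sq_sum_le_card_mul_sum_sq (s := (Finset.univ : Finset ι)) (f := fun m => |c m|)
          simp only [sq_abs] at h4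
          exact h4
        · have hE : IsEmpty ι := not_nonempty_iff.1 hne
          simp
    _ = _ := by ring

lemma prod_near {x y a b ε M : ℝ} (hx : |x - a| ≤ ε) (hy : |y - b| ≤ ε) (ha : |a| ≤ M)
    (hb : |b| ≤ M) (hε : ε ≤ 1) : |x * y - a * b| ≤ ε * (2 * M + 1) := by
  have hε0 : 0 ≤ ε := (abs_nonneg _).trans hx
  have hM : 0 ≤ M := (abs_nonneg _).trans ha
  have h1 : x * y - a * b = (x - a) * (y - b) + a * (y - b) + b * (x - a) := by ring
  rw [h1]
  refine (abs_add_le _ _).trans ?_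
  have h2 := abs_add_le ((x - a) * (y - b)) (a * (y - b))
  rw [abs_mul, abs_mul] at h2
  rw [abs_mul]
  have h3 : |x - a| * |y - b| ≤ ε * 1 := mul_le_mul hx (hy.trans hε) (abs_nonneg _) hε0
  have h4 : |a| * |y - b| ≤ M * ε := mul_le_mul ha hy (abs_nonneg _) hM
  have h5 : |b| * |x - a| ≤ M * ε := mul_le_mul hb hx (abs_nonneg _) hM
  linarith

/-- the norm of a real functional -/
lemma norm_fun (α β : ℝ) : ‖α • Complex.reCLM + β • Complex.imCLM‖ ^ 2 ≤ α ^ 2 + β ^ 2 := by
  have h1 : ‖α • Complex.reCLM + β • Complex.imCLM‖ ≤ √(α ^ 2 + β ^ 2) := by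
    refine ContinuousLinearMap.opNorm_le_bound _ (Real.sqrt_nonneg _) fun z => ?_
    have h2 : (α • Complex.reCLM + β • Complex.imCLM) z = α * z.re + β * z.im := by
      simp
    rw [h2, Real.norm_eq_abs]
    have h3 : ‖z‖ = √(z.re ^ 2 + z.im ^ 2) := by
      rw [Complex.norm_def, Complex.normSq_apply]
      ring_nf
    rw [h3, ← Real.sqrt_mul (by positivity)]
    apply Real.abs_le_sqrt
    nlinarith [sq_nonneg (α * z.im - β * z.re)]
  calc ‖α • Complex.reCLM + β • Complex.imCLM‖ ^ 2 ≤ √(α ^ 2 + β ^ 2) ^ 2 :=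
        pow_le_pow_left₀ (norm_nonneg _) h1 2
    _ = α ^ 2 + β ^ 2 := Real.sq_sqrt (by positivity)

/-- the approximate sines on `(-r, r)` -/
lemma scaled (h : StDir1) (K : ℕ) {r ε : ℝ} (hr : 0 < r) (hε : 0 < ε) :
    ∃ G : Fin K → ℝ → ℝ, (∀ k, ContDiff ℝ 1 (G k) ∧ tsupport (G k) ⊆ Ioo (-r) r) ∧
    ∀ k l, |(∫ x, G k x * G l x) - if k = l then 1 else 0| ≤ ε ∧
      |(∫ x, deriv (G k) x * deriv (G l) x) -
        if k = l then (π * ((k : ℕ) + 1) / (2 * r)) ^ 2 else 0| ≤ ε := by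
  have h2r : 0 < 2 * r := by linarith
  obtain ⟨g, hg, hgg⟩ := h K (min ε (ε * (2 * r) ^ 2)) (lt_min hε (by positivity))
  set s := (√(2 * r))⁻¹ with hs
  have hss : s * s = (2 * r)⁻¹ := by
    rw [hs, ← mul_inv, Real.mul_self_sqrt h2r.le]
  have hd : ∀ k x, HasDerivAt (fun x => s * g k ((x + r) / (2 * r)))
      (s * (deriv (g k) ((x + r) / (2 * r)) * (2 * r)⁻¹)) x := by
    intro k x
    have h1 : HasDerivAt (g k) (deriv (g k) ((x + r) / (2 * r))) ((x + r) / (2 * r)) :=
      ((hg k).1.differentiable (by norm_num) _).hasDerivAt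
    have h2 : HasDerivAt (fun x => (x + r) / (2 * r)) (2 * r)⁻¹ x := by
      have := ((hasDerivAt_id x).add_const r).div_const (2 * r)
      rwa [one_div] at this
    exact (h1.comp x h2).const_mul s
  have hint : ∀ f : ℝ → ℝ, ∫ x, f ((x + r) / (2 * r)) = (2 * r) * ∫ x, f x := by
    intro f
    have h1 := integral_add_right_eq_self (μ := (volume : Measure ℝ)) (fun x => f (x / (2 * r))) r
    rw [h1, Measure.integral_comp_div, abs_of_pos h2r, smul_eq_mul]
  refine ⟨fun k x => s * g k ((x + r) / (2 * r)), ?_, ?_⟩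
  · intro k
    refine ⟨contDiff_const.mul ((hg k).1.comp (by fun_prop)), ?_⟩
    have h1 : tsupport (fun x => s * g k ((x + r) / (2 * r))) ⊆
        (fun x : ℝ => (x + r) / (2 * r)) ⁻¹' tsupport (g k) := by
      refine (tsupport_mul_subset_right (f := fun _ => s)
        (g := fun x => g k ((x + r) / (2 * r)))).trans ?_
      exact tsupport_comp_subset_preimage (g k) (f := fun x : ℝ => (x + r) / (2 * r)) (by fun_prop)
    intro x hx
    have h2 := (hg k).2 (h1 hx)
    simp only [mem_Ioo] at h2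
    obtain ⟨h3, h4⟩ := h2
    rw [lt_div_iff₀ h2r] at h3
    rw [div_lt_iff₀ h2r] at h4
    constructor <;> linarith
  · intro k l
    obtain ⟨h1, h2⟩ := hgg k l
    constructor
    · have e1 : ∫ x, s * g k ((x + r) / (2 * r)) * (s * g l ((x + r) / (2 * r))) =
          ∫ x, g k x * g l x := by
        have e2 : ∀ x, s * g k ((x + r) / (2 * r)) * (s * g l ((x + r) / (2 * r))) =
            (2 * r)⁻¹ * (fun y => g k y * g l y) ((x + r) / (2 * r)) := by
          intro x
          rw [← hss]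
          ring
        simp_rw [e2]
        rw [integral_const_mul, hint (fun y => g k y * g l y), ← mul_assoc,
          inv_mul_cancel₀ h2r.ne', one_mul]
      rw [e1]
      exact h1.trans (min_le_left _ _)
    · have e1 : ∫ x, deriv (fun x => s * g k ((x + r) / (2 * r))) x *
          deriv (fun x => s * g l ((x + r) / (2 * r))) x =
          ((2 * r) ^ 2)⁻¹ * ∫ x, deriv (g k) x * deriv (g l) x := by
        have e2 : ∀ x, deriv (fun x => s * g k ((x + r) / (2 * r))) x *
            deriv (fun x => s * g l ((x + r) / (2 * r))) x =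
            ((2 * r)⁻¹ * ((2 * r) ^ 2)⁻¹) *
              (fun y => deriv (g k) y * deriv (g l) y) ((x + r) / (2 * r)) := by
          intro x
          have e4 : (2 * r)⁻¹ * ((2 * r) ^ 2)⁻¹ = s * s * ((2 * r)⁻¹ * (2 * r)⁻¹) := by
            rw [hss, ← inv_pow]
            ring
          rw [(hd k x).deriv, (hd l x).deriv, e4]
          ring
        simp_rw [e2]
        rw [integral_const_mul, hint (fun y => deriv (g k) y * deriv (g l) y)]
        field_simp
      rw [e1]
      have e3 : ((2 * r) ^ 2)⁻¹ * (∫ x, deriv (g k) x * deriv (g l) x) -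
          (if k = l then (π * ((k : ℕ) + 1) / (2 * r)) ^ 2 else 0) =
          ((2 * r) ^ 2)⁻¹ * ((∫ x, deriv (g k) x * deriv (g l) x) -
            if k = l then (π * ((k : ℕ) + 1)) ^ 2 else 0) := by
        split_ifs
        · rw [div_pow, mul_sub]
          congr 1
          ring
        · ring
      rw [e3, abs_mul, abs_of_pos (by positivity)]
      have h4 : |(∫ x, deriv (g k) x * deriv (g l) x) -
            if k = l then (π * ((k : ℕ) + 1)) ^ 2 else 0| ≤ ε * (2 * r) ^ 2 :=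
        h2.trans (min_le_right _ _)
      calc ((2 * r) ^ 2)⁻¹ * _ ≤ ((2 * r) ^ 2)⁻¹ * (ε * (2 * r) ^ 2) :=
            mul_le_mul_of_nonneg_left h4 (by positivity)
        _ = ε := by field_simp

lemma CC_of {G : ℝ → ℝ} {r : ℝ} (h : ContDiff ℝ 1 G) (hs : tsupport G ⊆ Ioo (-r) r) : CC G :=
  ⟨h.continuous, isCompact_Icc.of_isClosed_subset (isClosed_tsupport _)
    (hs.trans Ioo_subset_Icc_self)⟩

lemma CC_deriv {G : ℝ → ℝ} {r : ℝ} (h : ContDiff ℝ 1 G) (hs : tsupport G ⊆ Ioo (-r) r) :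
    CC (deriv G) :=
  ⟨h.continuous_deriv le_rfl, (CC_of h hs).2.deriv⟩

/-- test functions on a square -/
theorem t2 (h : StDir1) : StDir := by
  classical
  intro r Λ ε hr hΛ hε
  have hπ := Real.pi_pos
  obtain ⟨R, hR⟩ : ∃ R, R = 4 * r ^ 2 * Λ / π ^ 2 := ⟨_, rfl⟩
  rw [← hR]
  obtain ⟨K, hK⟩ : ∃ K : ℕ, R < K := exists_nat_gt R
  let S : Type := {p : ℕ × ℕ // ((p.1 : ℝ) + 1) ^ 2 + ((p.2 : ℝ) + 1) ^ 2 ≤ R}
  have hS : ∀ p : S, p.1.1 < K ∧ p.1.2 < K := by
    intro p
    have h1 := p.2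
    have h2 : (0 : ℝ) ≤ (p.1.1 : ℝ) := Nat.cast_nonneg _
    have h3 : (0 : ℝ) ≤ (p.1.2 : ℝ) := Nat.cast_nonneg _
    constructor
    · have : (p.1.1 : ℝ) < (K : ℝ) := by nlinarith
      exact_mod_cast this
    · have : (p.1.2 : ℝ) < (K : ℝ) := by nlinarith
      exact_mod_cast this
  have hfin : Finite S := by
    refine Finite.of_injective (fun p : S => ((⟨p.1.1, (hS p).1⟩, ⟨p.1.2, (hS p).2⟩) :
      Fin K × Fin K)) ?_
    intro p q hpq
    simp only [Prod.mk.injEq, Fin.mk.injEq] at hpq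
    exact Subtype.ext (Prod.ext hpq.1 hpq.2)
  have hcard : cD R = Nat.card S := rfl
  rw [hcard]
  let e : S ≃ Fin (Nat.card S) := Finite.equivFin S
  let kk : Fin (Nat.card S) → Fin K := fun m => ⟨(e.symm m).1.1, (hS _).1⟩
  let ll : Fin (Nat.card S) → Fin K := fun m => ⟨(e.symm m).1.2, (hS _).2⟩
  have hinj : ∀ m m', kk m = kk m' → ll m = ll m' → m = m' := by
    intro m m' h1 h2
    have h3 := congrArg Fin.val h1
    have h4 := congrArg Fin.val h2
    exact e.symm.injective (Subtype.ext (Prod.ext h3 h4))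
  -- the numbers
  obtain ⟨t0, ht0, ht1, ht2⟩ : ∃ t0 : ℝ, 0 < t0 ∧ t0 ≤ 1 / 2 ∧ t0 * (1 + (1 + ε) * Λ) ≤ ε * Λ := by
    refine ⟨min (1 / 2) (ε * Λ / (1 + (1 + ε) * Λ)), lt_min (by norm_num) (by positivity),
      min_le_left _ _, ?_⟩
    have h1 : min (1 / 2) (ε * Λ / (1 + (1 + ε) * Λ)) ≤ ε * Λ / (1 + (1 + ε) * Λ) :=
      min_le_right _ _
    rwa [le_div_iff₀ (by positivity)] at h1
  obtain ⟨N, hN⟩ : ∃ N : ℝ, N = ((Nat.card S : ℕ) : ℝ) := ⟨_, rfl⟩
  have hN0 : 0 ≤ N := by rw [hN]; exact Nat.cast_nonneg _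
  obtain ⟨δ, hδ0, hδ1⟩ : ∃ δ : ℝ, 0 < δ ∧ N * δ ≤ t0 := by
    refine ⟨t0 / (N + 1), by positivity, ?_⟩
    rw [mul_div_assoc', div_le_iff₀ (by positivity)]
    nlinarith
  obtain ⟨M, hM1, hM2⟩ : ∃ M : ℝ, 1 ≤ M ∧ (π * K / (2 * r)) ^ 2 ≤ M :=
    ⟨max 1 ((π * K / (2 * r)) ^ 2), le_max_left _ _, le_max_right _ _⟩
  obtain ⟨ε', hε'0, hε'1, hε'2⟩ : ∃ ε' : ℝ, 0 < ε' ∧ ε' ≤ 1 ∧ ε' * (2 * M + 1) ≤ δ / 2 := by
    refine ⟨min 1 (δ / 2 / (2 * M + 1)), lt_min one_pos (by positivity), min_le_left _ _, ?_⟩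
    have h1 : min 1 (δ / 2 / (2 * M + 1)) ≤ δ / 2 / (2 * M + 1) := min_le_right _ _
    rwa [le_div_iff₀ (by positivity)] at h1
  obtain ⟨G, hG, hGG⟩ := scaled h K hr hε'0
  have hCC : ∀ k, CC (G k) := fun k => CC_of (hG k).1 (hG k).2
  have hCD : ∀ k, CC (deriv (G k)) := fun k => CC_deriv (hG k).1 (hG k).2
  -- the functions
  have hF : ∀ m z, HasFDerivAt (fun z : ℂ => G (kk m) z.re * G (ll m) z.im)
      ((deriv (G (kk m)) z.re * G (ll m) z.im) • Complex.reCLM +
        (G (kk m) z.re * deriv (G (ll m)) z.im) • Complex.imCLM) z := by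
    intro m z
    have h1 : HasDerivAt (G (kk m)) (deriv (G (kk m)) z.re) z.re :=
      ((hG _).1.differentiable (by norm_num) _).hasDerivAt
    have h2 : HasDerivAt (G (ll m)) (deriv (G (ll m)) z.im) z.im :=
      ((hG _).1.differentiable (by norm_num) _).hasDerivAt
    have h3 := h1.comp_hasFDerivAt z Complex.reCLM.hasFDerivAt
    have h4 := h2.comp_hasFDerivAt z Complex.imCLM.hasFDerivAt
    have h5 := h3.mul h4
    refine h5.congr_fderiv ?_
    ext <;> (simp; ring)
  refine ⟨fun m z => G (kk m) z.re * G (ll m) z.im, ?_, ?_⟩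
  · intro m
    refine ⟨((hG _).1.comp Complex.reCLM.contDiff).mul ((hG _).1.comp Complex.imCLM.contDiff), ?_⟩
    have h1 : tsupport (fun z : ℂ => G (kk m) z.re * G (ll m) z.im) ⊆
        Ioo (-r) r ×ℂ Ioo (-r) r := by
      intro z hz
      rw [Complex.mem_reProdIm]
      constructor
      · have h2 := tsupport_mul_subset_left (f := fun z : ℂ => G (kk m) z.re)
          (g := fun z : ℂ => G (ll m) z.im) hz
        exact (hG _).2 (tsupport_comp_subset_preimage (G (kk m)) (f := Complex.re)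
          Complex.continuous_re h2)
      · have h2 := tsupport_mul_subset_right (f := fun z : ℂ => G (kk m) z.re)
          (g := fun z : ℂ => G (ll m) z.im) hz
        exact (hG _).2 (tsupport_comp_subset_preimage (G (ll m)) (f := Complex.im)
          Complex.continuous_im h2)
    refine h1.trans (interior_maximal ?_ (IsOpen.reProdIm isOpen_Ioo isOpen_Ioo))
    intro z hz
    rw [Complex.mem_reProdIm] at hz
    simp only [Sq, mem_ofPred_eq, Complex.zero_re, Complex.zero_im, sub_zero]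
    exact ⟨abs_le.2 ⟨hz.1.1.le, hz.1.2.le⟩, abs_le.2 ⟨hz.2.1.le, hz.2.2.le⟩⟩
  intro c
  obtain ⟨-, hQ1⟩ := quad c (fun m => G (kk m)) (fun m => G (ll m)) (fun m => hCC _)
    fun m => hCC _
  obtain ⟨iA, hA⟩ := quad c (fun m => deriv (G (kk m))) (fun m => G (ll m)) (fun m => hCD _)
    fun m => hCC _
  obtain ⟨iB, hB⟩ := quad c (fun m => G (kk m)) (fun m => deriv (G (ll m))) (fun m => hCC _)
    fun m => hCD _
  set Q := ∫ z : ℂ, (∑ m, c m * (G (kk m) z.re * G (ll m) z.im)) ^ 2 with hQ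
  set C := ∑ m, c m ^ 2 with hC
  have hC0 : 0 ≤ C := Finset.sum_nonneg fun m _ => sq_nonneg _
  have habs1 : ∀ k l : Fin K, |if k = l then (1 : ℝ) else 0| ≤ M := by
    intro k l
    split_ifs
    · rw [abs_one]; exact hM1
    · rw [abs_zero]; linarith
  have hkM : ∀ k : Fin K, (π * ((k : ℕ) + 1) / (2 * r)) ^ 2 ≤ M := by
    intro k
    refine le_trans ?_ hM2
    have h1 : ((k : ℕ) : ℝ) + 1 ≤ (K : ℝ) := by exact_mod_cast k.2
    have h2 : (0 : ℝ) ≤ ((k : ℕ) : ℝ) := Nat.cast_nonneg _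
    gcongr
  have habs2 : ∀ k l : Fin K, |if k = l then (π * ((k : ℕ) + 1) / (2 * r)) ^ 2 else 0| ≤ M := by
    intro k l
    split_ifs
    · rw [abs_of_nonneg (sq_nonneg _)]; exact hkM k
    · rw [abs_zero]; linarith
  have hite : ∀ (m m' : Fin (Nat.card S)) (x y : ℝ),
      (if kk m = kk m' then x else 0) * (if ll m = ll m' then y else 0) =
        if m = m' then x * y else 0 := by
    intro m m' x y
    by_cases h1 : m = m'
    · subst h1
      simp
    · rw [if_neg h1]
      by_cases h2 : kk m = kk m'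
      · have h3 : ll m ≠ ll m' := fun h3 => h1 (hinj m m' h2 h3)
        rw [if_neg h3, mul_zero]
      · rw [if_neg h2, zero_mul]
  -- the first form
  have hlow : |Q - C| ≤ N * δ * C := by
    have h1 := near (fun m m' => (∫ x, G (kk m) x * G (kk m') x) * ∫ x, G (ll m) x * G (ll m') x)
      (fun _ => 1) (δ := δ) (fun m m' => by
        have h2 := prod_near (hGG (kk m) (kk m')).1 (hGG (ll m) (ll m')).1 (habs1 _ _) (habs1 _ _)
          hε'1
        rw [hite m m' 1 1, one_mul] at h2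
        linarith) c
    rw [Fintype.card_fin, ← hN] at h1
    simp only [one_mul] at h1
    rw [hQ1]
    exact h1
  -- the second form
  have hup : ∫ z : ℂ, ‖∑ m, c m • fderiv ℝ (fun z : ℂ => G (kk m) z.re * G (ll m) z.im) z‖ ^ 2 ≤
      (Λ + N * δ) * C := by
    have h1 : ∀ z : ℂ,
        ‖∑ m, c m • fderiv ℝ (fun z : ℂ => G (kk m) z.re * G (ll m) z.im) z‖ ^ 2 ≤
        (∑ m, c m * (deriv (G (kk m)) z.re * G (ll m) z.im)) ^ 2 +
          (∑ m, c m * (G (kk m) z.re * deriv (G (ll m)) z.im)) ^ 2 := by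
      intro z
      have h2 : ∑ m, c m • fderiv ℝ (fun z : ℂ => G (kk m) z.re * G (ll m) z.im) z =
          (∑ m, c m * (deriv (G (kk m)) z.re * G (ll m) z.im)) • Complex.reCLM +
          (∑ m, c m * (G (kk m) z.re * deriv (G (ll m)) z.im)) • Complex.imCLM := by
        rw [Finset.sum_smul, Finset.sum_smul, ← Finset.sum_add_distrib]
        refine Finset.sum_congr rfl fun m _ => ?_
        rw [(hF m z).fderiv, smul_add, smul_smul, smul_smul]
      rw [h2]
      exact norm_fun _ _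
    have h3 : ∫ z : ℂ, ‖∑ m, c m • fderiv ℝ (fun z : ℂ => G (kk m) z.re * G (ll m) z.im) z‖ ^ 2 ≤
        ∫ z : ℂ, ((∑ m, c m * (deriv (G (kk m)) z.re * G (ll m) z.im)) ^ 2 +
          (∑ m, c m * (G (kk m) z.re * deriv (G (ll m)) z.im)) ^ 2) :=
      integral_mono_of_nonneg (Eventually.of_forall fun z => sq_nonneg _) (iA.add iB)
        (Eventually.of_forall h1)
    refine h3.trans ?_
    rw [integral_add iA iB, hA, hB, ← Finset.sum_add_distrib]
    have h4 := near (fun m m' =>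
      (∫ x, deriv (G (kk m)) x * deriv (G (kk m')) x) * (∫ x, G (ll m) x * G (ll m') x) +
      (∫ x, G (kk m) x * G (kk m') x) * ∫ x, deriv (G (ll m)) x * deriv (G (ll m')) x)
      (fun m => (π * ((kk m : ℕ) + 1) / (2 * r)) ^ 2 + (π * ((ll m : ℕ) + 1) / (2 * r)) ^ 2)
      (δ := δ) (fun m m' => by
        have h5 := prod_near (hGG (kk m) (kk m')).2 (hGG (ll m) (ll m')).1 (habs2 _ _)
          (habs1 _ _) hε'1
        have h6 := prod_near (hGG (kk m) (kk m')).1 (hGG (ll m) (ll m')).2 (habs1 _ _)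
          (habs2 _ _) hε'1
        rw [hite, mul_one] at h5
        rw [hite, one_mul] at h6
        obtain ⟨a1, a2⟩ := abs_le.1 h5
        obtain ⟨b1, b2⟩ := abs_le.1 h6
        by_cases h7 : m = m'
        · simp only [if_pos h7] at a1 a2 b1 b2 ⊢
          rw [abs_le]
          constructor <;> linarith
        · simp only [if_neg h7] at a1 a2 b1 b2 ⊢
          rw [abs_le]
          constructor <;> linarith) c
    rw [Fintype.card_fin, ← hN, ← hC] at h4
    have h8 : ∑ m, ((π * ((kk m : ℕ) + 1) / (2 * r)) ^ 2 +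
        (π * ((ll m : ℕ) + 1) / (2 * r)) ^ 2) * c m ^ 2 ≤ Λ * C := by
      rw [hC, Finset.mul_sum]
      refine Finset.sum_le_sum fun m _ => mul_le_mul_of_nonneg_right ?_ (sq_nonneg _)
      have h9 : (((e.symm m).1.1 : ℝ) + 1) ^ 2 + (((e.symm m).1.2 : ℝ) + 1) ^ 2 ≤ R :=
        (e.symm m).2
      have h10 : (π * ((kk m : ℕ) + 1) / (2 * r)) ^ 2 + (π * ((ll m : ℕ) + 1) / (2 * r)) ^ 2 =
          (π / (2 * r)) ^ 2 * ((((e.symm m).1.1 : ℝ) + 1) ^ 2 +
            (((e.symm m).1.2 : ℝ) + 1) ^ 2) := by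
        show (π * (((e.symm m).1.1 : ℝ) + 1) / (2 * r)) ^ 2 +
          (π * (((e.symm m).1.2 : ℝ) + 1) / (2 * r)) ^ 2 = _
        ring
      rw [h10]
      calc (π / (2 * r)) ^ 2 * ((((e.symm m).1.1 : ℝ) + 1) ^ 2 +
            (((e.symm m).1.2 : ℝ) + 1) ^ 2) ≤ (π / (2 * r)) ^ 2 * R :=
            mul_le_mul_of_nonneg_left h9 (sq_nonneg _)
        _ = Λ := by
          rw [hR]
          field_simp
          ring
    have h11 := (abs_le.1 h4).2
    have h12 : ∑ m, (∑ m', c m * c m' *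
        ((∫ x, deriv (G (kk m)) x * deriv (G (kk m')) x) * ∫ x, G (ll m) x * G (ll m') x) +
        ∑ m', c m * c m' *
        ((∫ x, G (kk m) x * G (kk m') x) * ∫ x, deriv (G (ll m)) x * deriv (G (ll m')) x)) =
        ∑ m, ∑ m', c m * c m' *
      ((∫ x, deriv (G (kk m)) x * deriv (G (kk m')) x) * (∫ x, G (ll m) x * G (ll m') x) +
      (∫ x, G (kk m) x * G (kk m') x) * ∫ x, deriv (G (ll m)) x * deriv (G (ll m')) x) := by
      refine Finset.sum_congr rfl fun m _ => ?_
      rw [← Finset.sum_add_distrib]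
      refine Finset.sum_congr rfl fun m' _ => ?_
      ring
    rw [h12]
    linarith
  have hNδC : N * δ * C ≤ t0 * C := mul_le_mul_of_nonneg_right hδ1 hC0
  have hQlow : (1 - t0) * C ≤ Q := by
    have := (abs_le.1 hlow).1
    linarith
  constructor
  · show 1 / 2 * C ≤ Q
    nlinarith
  · show _ ≤ (1 + ε) * Λ * Q
    refine hup.trans ?_
    calc (Λ + N * δ) * C ≤ (Λ + t0) * C := by nlinarith
      _ ≤ ((1 + ε) * Λ * (1 - t0)) * C := mul_le_mul_of_nonneg_right (by nlinarith) hC0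
      _ = (1 + ε) * Λ * ((1 - t0) * C) := by ring
      _ ≤ (1 + ε) * Λ * Q := mul_le_mul_of_nonneg_left hQlow (by positivity)

end Pool.Agent.Y390.QR.DIR
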